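import Mathlib
import Pool.Agent.U640.MS.Final

/-!
# The topological full group of the Morse subshift contains a group of intermediate growth

Let `X` be the substitution subshift of the Morse substitution `0 ↦ 01`, `1 ↦ 10` and `T` the left
shift of `X`. The topological full group `[[T]]` contains a finitely generated subgroup of
intermediate growth.

The subgroup is generated by four involutions `a, b, c, d`, which exchange `x` and `T x` for the
`x` in four clopen sets: `a` for the `x` of even phase (`x` in the image of the substitution), `b`
for those of odd phase, `c` for those of odd phase with `x_0 = x_1` and `d` for those of odd phase
with `x_0 ≠ x_1`. The substitution gives a recursion of these involutions, which is the one of the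
Grigorchuk group `G_ω` for `ω = 010101...`; words in the generators are trivial in `[[T]]` iff they
are trivial in `G_ω`.
-/

set_option autoImplicit false

namespace Pool.Agent.Results.MP_0e9457_al.MorseFullGroup

open Pool.Agent.U640.MS

/-- The topological full group `[[T]]` of the Morse subshift contains a finitely generated subgroup
of intermediate growth. -/
theorem result : ContainsIntermediate (T morse) := main

end Pool.Agent.Results.MP_0e9457_al.MorseFullGroup
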